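import Pool.Agent.Lib.MP_decb17_al.Main

set_option autoImplicit false

namespace Pool.Agent.Results.MP_decb17_al.NoExtremal

theorem result :
    ∃ (G : Type) (_ : Group G),
      (∀ g : G, IsOfFinOrder g → g = 1) ∧
      (∃ (n : ℕ) (rels : Finset (FreeGroup (Fin n))),
        Nonempty (G ≃* PresentedGroup (rels : Set (FreeGroup (Fin n))))) ∧
      (∀ g : G, g ≠ 1 → ∃ (Q : Type) (_ : Group Q) (_ : Finite Q) (φ : G →* Q), φ g ≠ 1) ∧
      ∀ H : Subgroup G, H.FiniteIndex →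
        ∃ A : Finset H, A.Nonempty ∧ ∀ a ∈ A, ∃ g : H, g ≠ 1 ∧ g * a ∈ A ∧ g⁻¹ * a ∈ A := by
  classical
  refine ⟨Pool.Agent.Lib.MP_decb17_al.G, inferInstance, ?_,
    Pool.Agent.Lib.MP_decb17_al.finitely_presented, ?_, ?_⟩
  · intro g h
    obtain ⟨n, hn, h⟩ := isOfFinOrder_iff_pow_eq_one.mp h
    obtain ⟨m, rfl⟩ := Nat.exists_eq_succ_of_ne_zero hn.ne'
    exact Pool.Agent.Lib.MP_decb17_al.torsion_free g m h
  · intro g hg
    obtain ⟨N, hN, hF, hg⟩ := Pool.Agent.Lib.MP_decb17_al.residually_finite g hg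
    exact ⟨_ ⧸ N, inferInstance, inferInstance, QuotientGroup.mk' N, fun h =>
      hg ((QuotientGroup.eq_one_iff g).mp h)⟩
  · intro H hH
    obtain ⟨A, h1, h2, h3⟩ := Pool.Agent.Lib.MP_decb17_al.not_diffuse H
    refine ⟨A.subtype (· ∈ H), ?_, ?_⟩
    · obtain ⟨a, ha⟩ := Finset.card_pos.mp (by omega : 0 < A.card)
      exact ⟨⟨a, h1 a ha⟩, by simpa using ha⟩
    · intro a ha
      obtain ⟨g, hg, hg1, h5, h6⟩ := h3 a (by simpa using ha)
      refine ⟨⟨g, hg⟩, fun h => hg1 (congrArg Subtype.val h), ?_, ?_⟩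
      · simpa using h5
      · simpa using h6

end Pool.Agent.Results.MP_decb17_al.NoExtremal
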